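import Pool.Agent.W292.NR.Stm

set_option autoImplicit false

namespace Pool.Agent.W806.NR

open Pool.Agent.W292.NR

namespace RamAux

/-- iterated limit of a coloring along an ultrafilter -/
noncomputable def lim (U : Ultrafilter ℕ) {κ : Type*} [Inhabited κ] : ℕ → (Finset ℕ → κ) → κ
  | 0, c => c ∅
  | n + 1, c => by
      classical
      exact if h : ∃ j, ∀ᶠ a in (U : Filter ℕ), lim U n (fun s => c (insert a s)) = j then h.choose else default

theorem lim_succ (U : Ultrafilter ℕ) {κ : Type*} [Inhabited κ] [Finite κ] (n : ℕ) (c : Finset ℕ → κ) :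
    ∀ᶠ a in (U : Filter ℕ), lim U n (fun s => c (insert a s)) = lim U (n + 1) c := by
  classical
  have h : ∃ j, ∀ᶠ a in (U : Filter ℕ), lim U n (fun s => c (insert a s)) = j := by
    rw [← Ultrafilter.eventually_exists_iff]
    exact Filter.Eventually.of_forall (fun a => ⟨_, rfl⟩)
  simp only [lim]
  rw [dif_pos h]
  exact h.choose_spec

theorem ramsey {κ : Type*} [Finite κ] (n : ℕ) (c : Finset ℕ → κ) (A : Set ℕ) (hA : A.Infinite) :
    ∃ B ⊆ A, B.Infinite ∧ ∃ j, ∀ s : Finset ℕ, (s : Set ℕ) ⊆ B → s.card = n → c s = j := by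
  classical
  have : Inhabited κ := ⟨c ∅⟩
  have := hA.cofinite_inf_principal_neBot
  set U : Ultrafilter ℕ := Ultrafilter.of (Filter.cofinite ⊓ Filter.principal A) with hU
  have hUle : (U : Filter ℕ) ≤ Filter.cofinite ⊓ Filter.principal A := Ultrafilter.of_le _
  have hUA : ∀ᶠ a in (U : Filter ℕ), a ∈ A := by
    have := hUle.trans inf_le_right
    exact this (Filter.mem_principal_self A)
  have hUcof : ∀ a : ℕ, ∀ᶠ b in (U : Filter ℕ), b ≠ a := by
    intro a
    have := hUle.trans inf_le_left
    exact this (by simp)
  set j := lim U n c with hj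
  let P : Finset ℕ → Prop := fun F => (F : Set ℕ) ⊆ A ∧
    ∀ s ⊆ F, s.card ≤ n → lim U (n - s.card) (fun t => c (s ∪ t)) = j
  have hP0 : P ∅ := by
    refine ⟨by simp, ?_⟩
    intro s hs _
    rw [Finset.subset_empty] at hs
    subst hs
    simp [hj]
  have hstep : ∀ F, P F → ∃ a, a ∉ F ∧ P (insert a F) := by
    intro F hF
    have h1 : ∀ᶠ a in (U : Filter ℕ), ∀ s ∈ F.powerset, s.card + 1 ≤ n →
        lim U (n - (s.card + 1)) (fun t => c (insert a s ∪ t)) = j := by
      rw [Finset.eventually_all]
      intro s hs
      rw [Finset.mem_powerset] at hs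
      by_cases hc : s.card + 1 ≤ n
      · have h2 := lim_succ U (n - (s.card + 1)) (fun t => c (s ∪ t))
        have h3 : n - (s.card + 1) + 1 = n - s.card := by omega
        rw [h3, hF.2 s hs (by omega)] at h2
        filter_upwards [h2] with a ha _
        rw [← ha]
        congr 1
        funext t
        rw [Finset.insert_union, Finset.union_insert]
      · exact Filter.Eventually.of_forall (fun a h => absurd h hc)
    have h2 : ∀ᶠ a in (U : Filter ℕ), ∀ b ∈ F, a ≠ b := by
      rw [Finset.eventually_all]
      intro b _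
      exact hUcof b
    obtain ⟨a, ha1, ha2, ha3⟩ := (h1.and (h2.and hUA)).exists
    refine ⟨a, fun h => ha2 a h rfl, ?_, ?_⟩
    · intro x hx
      rw [Finset.coe_insert] at hx
      rcases hx with rfl | hx
      · exact ha3
      · exact hF.1 hx
    · intro s hs hc
      by_cases has : a ∈ s
      · have h4 : s.erase a ∈ F.powerset := by
          rw [Finset.mem_powerset]
          intro x hx
          rw [Finset.mem_erase] at hx
          have := hs hx.2
          rw [Finset.mem_insert] at this
          rcases this with h | h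
          · exact absurd h hx.1
          · exact h
        have h5 := ha1 (s.erase a) h4
        rw [Finset.card_erase_of_mem has, Finset.insert_erase has] at h5
        have h6 : 0 < s.card := Finset.card_pos.mpr ⟨a, has⟩
        have h7 : s.card - 1 + 1 = s.card := by omega
        rw [h7] at h5
        exact h5 hc
      · refine hF.2 s ?_ hc
        intro x hx
        have := hs hx
        rw [Finset.mem_insert] at this
        rcases this with h | h
        · subst h; exact absurd hx has
        · exact h
  choose! f hf1 hf2 using hstep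
  obtain ⟨seq, hseq0, hseqsucc⟩ : ∃ seq : ℕ → Finset ℕ, seq 0 = ∅ ∧ ∀ m, seq (m + 1) = insert (f (seq m)) (seq m) :=
    ⟨fun m => Nat.rec ∅ (fun _ F => insert (f F) F) m, rfl, fun _ => rfl⟩
  have hseqP : ∀ m, P (seq m) := by
    intro m
    induction m with
    | zero => rw [hseq0]; exact hP0
    | succ m ih => rw [hseqsucc]; exact hf2 _ ih
  have hcard : ∀ m, (seq m).card = m := by
    intro m
    induction m with
    | zero => rw [hseq0]; rfl
    | succ m ih =>
      rw [hseqsucc, Finset.card_insert_of_notMem (hf1 _ (hseqP m)), ih]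
  have hmono : Monotone seq := by
    refine monotone_nat_of_le_succ (fun m => ?_)
    rw [hseqsucc]
    exact Finset.subset_insert _ _
  refine ⟨⋃ m : ℕ, (↑(seq m) : Set ℕ), ?_, ?_, j, ?_⟩
  · exact Set.iUnion_subset (fun m => (hseqP m).1)
  · intro hfin
    have h1 : (seq (hfin.toFinset.card + 1)) ⊆ hfin.toFinset := by
      intro x hx
      rw [Set.Finite.mem_toFinset]
      exact Set.mem_iUnion.mpr ⟨_, hx⟩
    have := Finset.card_le_card h1
    rw [hcard] at this
    omega
  · intro s hs hc
    have h1 : ∃ m, s ⊆ seq m := by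
      have : ∀ x ∈ s, ∃ m, x ∈ seq m := by
        intro x hx
        have := hs hx
        rw [Set.mem_iUnion] at this
        exact this
      choose! g hg using this
      refine ⟨s.sup g, fun x hx => ?_⟩
      exact hmono (Finset.le_sup hx) (hg x hx)
    obtain ⟨m, hm⟩ := h1
    have := (hseqP m).2 s hm hc.le
    rw [hc, Nat.sub_self] at this
    simpa [lim] using this

end RamAux

open Finset in
theorem ram : S_RAM := by
  classical
  intro m k hk r hr
  -- the colour of a set of `k` names
  let col : Finset ℕ → Fin m → Fin (k + 1) := fun Y q =>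
    if h : (Y.filter (fun u => u < r q (Y.image (fun y => (y, (1 : ℚ)))))).card < k + 1 then
      ⟨_, h⟩ else 0
  obtain ⟨A, -, hA, j, hj⟩ := RamAux.ramsey k col Set.univ Set.infinite_univ
  set a : ℕ → ℕ := Nat.nth (· ∈ A) with ha
  have hmono : StrictMono a := Nat.nth_strictMono hA
  have hmem : ∀ n, a n ∈ A := fun n => Nat.nth_mem_of_infinite hA n
  have key : ∀ (q : Fin m) (Y : Finset ℕ), Y.card = k → ∃ y ∈ Y,
      r q (Y.image (fun y => (a y, (1 : ℚ)))) = a y ∧
        (Y.filter (fun u => u < y)).card = (j q : ℕ) := by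
    intro q Y hY
    set Z : Finset ℕ := Y.image a with hZ
    have hZc : Z.card = k := by rw [hZ, card_image_of_injective _ hmono.injective, hY]
    have hZA : (Z : Set ℕ) ⊆ A := by
      intro x hx
      rw [hZ, coe_image] at hx
      obtain ⟨y, _, rfl⟩ := hx
      exact hmem y
    have hcol := congrFun (hj Z hZA hZc) q
    have himg : Z.image (fun y => (y, (1 : ℚ))) = Y.image (fun y => (a y, (1 : ℚ))) := by
      rw [hZ, image_image]
      rfl
    have hYne : Y.Nonempty := by
      rw [← card_pos]
      omega
    obtain ⟨c, hc⟩ := hr q (Y.image (fun y => (a y, (1 : ℚ)))) (hYne.image _)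
    obtain ⟨y, hy, hyc⟩ := mem_image.1 hc
    have hry : r q (Y.image (fun y => (a y, (1 : ℚ)))) = a y := (congrArg Prod.fst hyc).symm
    refine ⟨y, hy, hry, ?_⟩
    have hcard : (Z.filter (fun u => u < a y)).card = (Y.filter (fun u => u < y)).card := by
      have : Z.filter (fun u => u < a y) = (Y.filter (fun u => u < y)).image a := by
        ext x
        rw [mem_filter, hZ, mem_image, mem_image]
        constructor
        · rintro ⟨⟨u, hu, rfl⟩, h2⟩
          exact ⟨u, mem_filter.2 ⟨hu, hmono.lt_iff_lt.1 h2⟩, rfl⟩
        · rintro ⟨u, hu, rfl⟩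
          rw [mem_filter] at hu
          exact ⟨⟨u, hu.1, rfl⟩, hmono hu.2⟩
      rw [this, card_image_of_injective _ hmono.injective]
    have hlt : (Z.filter (fun u => u < a y)).card < k + 1 := by
      have := card_filter_le Z (fun u => u < a y)
      omega
    have h1 : (col Z q : ℕ) = (Z.filter (fun u => u < a y)).card := by
      simp only [col]
      rw [himg, hry, dif_pos hlt]
    rw [← hcard, ← h1, hcol]
  refine ⟨a, fun q => (j q : ℕ), hmono, ?_, key⟩
  intro q
  obtain ⟨y, hy, _, h2⟩ := key q (range k) (card_range k)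
  show (j q : ℕ) < k
  rw [← h2]
  calc ((range k).filter (fun u => u < y)).card < (range k).card := by
        apply card_lt_card
        refine ⟨filter_subset _ _, fun h => ?_⟩
        have := h hy
        rw [mem_filter] at this
        exact absurd this.2 (lt_irrefl _)
    _ = k := card_range k

end Pool.Agent.W806.NR
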